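import Mathlib

/-!
MOM (MP_2b7f8f_an, strong MOMO for horocycle maps): definitions. The complete paper proof is
/team-store/MOMO.md; notation of that file is used in all docstrings.
-/

set_option autoImplicit false

namespace Pool.Agent.MOM

open Finset MeasureTheory

/-- `ph t n = n^{-it}` (equal to `1` for `n = 0`). -/
noncomputable def ph (t : ℝ) (n : ℕ) : ℂ :=
  Complex.exp (((-(t * Real.log n) : ℝ) : ℂ) * Complex.I)

/-- The Dirichlet polynomial `∑_{n ∈ S} a(n) n^{-1-it}`. -/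
noncomputable def dp (S : Finset ℕ) (a : ℕ → ℂ) (t : ℝ) : ℂ :=
  ∑ n ∈ S, a n / (n : ℂ) * ph t n

/-- The integers `n` with `x < n ≤ y`. -/
noncomputable def win (x y : ℝ) : Finset ℕ := Finset.Ioc ⌊x⌋₊ ⌊y⌋₊

/-- The Möbius function with values in `ℂ`. -/
noncomputable def mu (n : ℕ) : ℂ := ((ArithmeticFunction.moebius n : ℤ) : ℂ)

/-- `M_X(t) = ∑_{X < n ≤ lam X} μ(n) n^{-1-it}`. -/
noncomputable def MX (lam X t : ℝ) : ℂ := dp (win X (lam * X)) mu t

/-- The primes in `[x, y)`. -/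
noncomputable def prs (x y : ℝ) : Finset ℕ := (Finset.Ico ⌈x⌉₊ ⌈y⌉₊).filter Nat.Prime

/-- The cell number `u` at resolution `H`: the primes in `[e^{u/H}, e^{(u+1)/H})`. -/
noncomputable def cell (H u : ℕ) : Finset ℕ :=
  prs (Real.exp ((u : ℝ) / H)) (Real.exp (((u : ℝ) + 1) / H))

/-- `q_S = ∑_{p ∈ S} 1/p`. -/
noncomputable def qs (S : Finset ℕ) : ℝ := ∑ p ∈ S, 1 / (p : ℝ)

/-- `ω_S(n)`: the number of elements of `S` dividing `n`. -/
def om (S : Finset ℕ) (n : ℕ) : ℕ := (S.filter (· ∣ n)).card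

/-- The Gaussian density of standard deviation `s`. -/
noncomputable def eta (s y : ℝ) : ℝ :=
  (s * Real.sqrt (2 * Real.pi))⁻¹ * Real.exp (-(y ^ 2) / (2 * s ^ 2))

theorem mem_win {x y : ℝ} (hx : 0 ≤ x) {n : ℕ} : n ∈ win x y ↔ x < n ∧ (n : ℝ) ≤ y := by
  unfold win
  rw [Finset.mem_Ioc, Nat.floor_lt hx]
  constructor
  · rintro ⟨h1, h2⟩
    refine ⟨h1, ?_⟩
    have h3 : 0 ≤ y := by
      by_contra h
      have h4 : ⌊y⌋₊ = 0 := Nat.floor_of_nonpos (le_of_lt (not_le.1 h))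
      have h5 : n = 0 := by omega
      subst h5
      simp at h1
      linarith
    exact (Nat.le_floor_iff h3).1 h2
  · rintro ⟨h1, h2⟩
    exact ⟨h1, Nat.le_floor h2⟩

theorem norm_ph (t : ℝ) (n : ℕ) : ‖ph t n‖ = 1 := Complex.norm_exp_ofReal_mul_I _

theorem ph_zero_left (n : ℕ) : ph 0 n = 1 := by simp [ph]

theorem ph_one_right (t : ℝ) : ph t 1 = 1 := by simp [ph]

theorem ph_mul {m n : ℕ} (hm : m ≠ 0) (hn : n ≠ 0) (t : ℝ) :
    ph t (m * n) = ph t m * ph t n := by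
  unfold ph
  rw [← Complex.exp_add]
  congr 1
  push_cast
  rw [Real.log_mul (by exact_mod_cast hm) (by exact_mod_cast hn)]
  push_cast
  ring

theorem ph_add (s t : ℝ) (n : ℕ) : ph (s + t) n = ph s n * ph t n := by
  unfold ph
  rw [← Complex.exp_add]
  congr 1
  push_cast
  ring

theorem continuous_ph (n : ℕ) : Continuous fun t => ph t n := by
  unfold ph
  fun_prop

theorem continuous_dp (S : Finset ℕ) (a : ℕ → ℂ) : Continuous (dp S a) := by
  unfold dp
  exact continuous_finsetSum _ fun n _ => continuous_const.mul (continuous_ph n)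

theorem norm_dp_le (S : Finset ℕ) (a : ℕ → ℂ) (t : ℝ) :
    ‖dp S a t‖ ≤ ∑ n ∈ S, ‖a n‖ / n := by
  unfold dp
  refine (norm_sum_le _ _).trans (Finset.sum_le_sum fun n _ => ?_)
  rw [norm_mul, norm_ph, mul_one, norm_div, Complex.norm_natCast]

theorem norm_mu_le (n : ℕ) : ‖mu n‖ ≤ 1 := by
  unfold mu
  rw [Complex.norm_intCast]
  have h := ArithmeticFunction.abs_moebius_le_one (n := n)
  exact_mod_cast h

theorem mem_prs {x y : ℝ} {p : ℕ} : p ∈ prs x y ↔ (x ≤ p ∧ (p : ℝ) < y) ∧ p.Prime := by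
  unfold prs
  rw [Finset.mem_filter, Finset.mem_Ico, Nat.ceil_le, Nat.lt_ceil]

theorem mem_cell {H u p : ℕ} : p ∈ cell H u ↔
    (Real.exp ((u : ℝ) / H) ≤ p ∧ (p : ℝ) < Real.exp (((u : ℝ) + 1) / H)) ∧ p.Prime :=
  mem_prs

theorem qs_nonneg (S : Finset ℕ) : 0 ≤ qs S :=
  Finset.sum_nonneg fun _ _ => by positivity

theorem eta_nonneg {s : ℝ} (hs : 0 ≤ s) (y : ℝ) : 0 ≤ eta s y := by
  unfold eta
  positivity

theorem continuous_eta (s : ℝ) : Continuous (eta s) := by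
  unfold eta
  fun_prop

theorem eta_neg (s y : ℝ) : eta s (-y) = eta s y := by simp [eta]

end Pool.Agent.MOM
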