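import Pool.Agent.MOM.Defs

/-!
MOM (MP_2b7f8f_an): sampled functions (section 1 of /team-store/MOMO.md). The distance `d` in `cont`
is uniform in the dilation `r ∈ [1/3, 3]`.
-/

set_option autoImplicit false

namespace Pool.Agent.MOM

open Finset Filter Topology MeasureTheory

open scoped Classical in
/-- A bounded function on the line with the sampling property at all dilations. -/
structure Sampled (F : ℝ → ℂ) : Prop where
  meas : Measurable F
  bdd : ∀ x, ‖F x‖ ≤ 1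
  cont : ∀ ε : ℝ, 0 < ε → ∃ d : ℝ, 0 < d ∧ ∀ r : ℝ, 1 / 3 ≤ r → r ≤ 3 → ∃ N0 : ℕ, ∀ N : ℕ,
    N0 ≤ N → (((range N).filter fun n : ℕ =>
      ∃ x : ℝ, |x - n| ≤ d ∧ ε < ‖F (r * x) - F (r * n)‖).card : ℝ) ≤ ε * N
  samp : ∀ r r' a b : ℝ, 0 < r → 0 < r' → 0 < a → a < b →
    Tendsto (fun X : ℝ => ∑ m ∈ win (a * X) (b * X),
        F (r * m) * (starRingEnd ℂ) (F (r' * m)) / (m : ℂ) -
      ∫ x in (a * X)..(b * X), F (r * x) * (starRingEnd ℂ) (F (r' * x)) / (x : ℂ))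
      atTop (𝓝 0)

end Pool.Agent.MOM
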