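import Pool.Agent.MOM.An.PartA
import Pool.Agent.MOM.An.PartB
import Pool.Agent.MOM.NT.Mertens

/-!
MOM (MP_2b7f8f_an): THEOREM N of /team-store/MOMO.md. Architect: helper65.

PROOF of `thmN_bound`: for every `ε ∈ (0,1]` there is `X0` with `‖Λ(X)‖ ≤ ε` for `X ≥ X0`. Choose `k`
with `√(2/k) ≤ ε/5`; `H = max(2, 4(k+1), ⌈2^k · 2(k+2) · 5/ε⌉)`; `α0` and `Pst` from `partA` for
`k`, `ε/5`; `P1 = max(Pst, 1, 2^k · 2 · 5/ε)`; `V` from `good_cells` with `c = α0/2`, `P = P1`,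
`B = max(1, (3 · 2^k · 5/ε)²)`; `V` is nonempty as `B > 0`, its cells have `qs > 0`; so `Good H V`,
`1 ≤ W1`, `2^k · 3/√W1 ≤ ε/5`. For `X ≥ X0` (the maximum over `i < k` of the bounds in `partA` and
`partB` with error `ε/5`): by `energy` for `g = gX F lam X` (`gX_nice`, `nsq_gX_le`) there is `i < k`
with `∑ w_v nsq(..) ≤ 1/k`. `Λ(X) = ∑ (μ(n)/n) gX(log n)` because `exp (log n) = n` and
`X < n ≤ lam X`; split `gX = (gX - act (OW i) gX) + act (OW i) gX`. The sum of all errors is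
`≤ ε/5 + √(2/k) + ε/5 + ε/5 + ε/5 ...`; adjust the constants (e.g. use `ε/8` everywhere).
-/

set_option autoImplicit false

namespace Pool.Agent.MOM

open Finset Filter Topology

/-- On the window the function `gX` is `F`. -/
private theorem gX_log {F : ℝ → ℂ} {lam X : ℝ} (hX : 0 < X) {n : ℕ} (hn : n ∈ win X (lam * X)) :
    gX F lam X (Real.log n) = F n := by
  rw [mem_win hX.le] at hn
  have h0 : (0 : ℝ) < n := hX.trans hn.1
  unfold gX
  rw [Real.exp_log h0, if_pos hn]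

theorem thmN_bound {F : ℝ → ℂ} (hF : Sampled F) {lam : ℝ} (hl : 1 < lam) (hl2 : lam ≤ 2)
    {ε : ℝ} (hε : 0 < ε) : ∃ X0 : ℝ, ∀ X : ℝ, X0 ≤ X →
      ‖∑ n ∈ win X (lam * X), mu n * F n / (n : ℂ)‖ ≤ ε := by
  obtain ⟨e, he⟩ : ∃ e, e = ε / 6 := ⟨_, rfl⟩
  have he0 : 0 < e := by rw [he]; positivity
  -- the number of steps
  obtain ⟨k, hk⟩ := exists_nat_ge (max 1 (2 / e ^ 2))
  have hk1 : (1 : ℝ) ≤ k := (le_max_left _ _).trans hk
  have hk2 : 2 / e ^ 2 ≤ k := (le_max_right _ _).trans hk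
  have hk0 : 0 < k := by
    have : (0 : ℝ) < k := by linarith
    exact_mod_cast this
  have hsk : Real.sqrt (2 / (k : ℝ)) ≤ e := by
    rw [Real.sqrt_le_left he0.le, div_le_iff₀ (by linarith)]
    rwa [div_le_iff₀ (by positivity), mul_comm] at hk2
  obtain ⟨α0, hα0, hA⟩ := partA
  obtain ⟨Pst, hPst⟩ := hA lam hl hl2 F hF k e he0
  -- the resolution
  obtain ⟨H, hH⟩ := exists_nat_ge (max 2 (max (4 * ((k : ℝ) + 1))
    (2 ^ k * (2 * ((k : ℝ) + 2)) / e)))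
  have hH2 : (2 : ℝ) ≤ H := (le_max_left _ _).trans hH
  have hH4 : 4 * ((k : ℝ) + 1) ≤ H := ((le_max_left _ _).trans (le_max_right _ _)).trans hH
  have hHe : 2 ^ k * (2 * ((k : ℝ) + 2)) / e ≤ H :=
    ((le_max_right _ _).trans (le_max_right _ _)).trans hH
  have hH2' : 2 ≤ H := by exact_mod_cast hH2
  have hH4' : 4 * (k + 1) ≤ H := by exact_mod_cast hH4
  have hHpos : (0 : ℝ) < H := by linarith
  -- the size of the primes
  obtain ⟨P1, hP1⟩ : ∃ P1, P1 = max Pst (max 1 (2 ^ k * 2 / e)) := ⟨_, rfl⟩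
  have hP1a : Pst ≤ P1 := hP1 ▸ le_max_left _ _
  have hP1b : 1 ≤ P1 := hP1 ▸ (le_max_left _ _).trans (le_max_right _ _)
  have hP1c : 2 ^ k * 2 / e ≤ P1 := hP1 ▸ (le_max_right _ _).trans (le_max_right _ _)
  have hP10 : 0 < P1 := by linarith
  -- the cells
  obtain ⟨V, hV, hB⟩ := good_cells H (by omega) (half_pos hα0) P1
    (max 1 ((2 ^ k * 3 / e) ^ 2))
  have hW : W1 H V = ∑ v ∈ V, qs (cell H v) := rfl
  have hW1 : 1 ≤ W1 H V := hW ▸ (le_max_left _ _).trans hB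
  have hW2 : (2 ^ k * 3 / e) ^ 2 ≤ W1 H V := hW ▸ (le_max_right _ _).trans hB
  have hW0 : 0 < W1 H V := by linarith
  have hgood : Good H V := by
    refine ⟨by omega, ?_, fun v hv => (Real.exp_pos _).trans_le (hV v hv).2⟩
    rw [Finset.nonempty_iff_ne_empty]
    intro h0
    rw [hW, h0, Finset.sum_empty] at hW0
    exact lt_irrefl _ hW0
  have hsW : 2 ^ k * 3 / e ≤ Real.sqrt (W1 H V) := Real.le_sqrt_of_sq_le hW2
  have hsW0 : 0 < Real.sqrt (W1 H V) := Real.sqrt_pos.2 hW0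
  -- the bounds for large `X`
  have hXA : ∀ i : ℕ, ∃ X0 : ℝ, i < k → ∀ X : ℝ, X0 ≤ X →
      ‖∑ n ∈ win X (lam * X), mu n / (n : ℂ) * (gX F lam X (Real.log n) -
        act (OW H V i) (gX F lam X) (Real.log n))‖ ≤ e := by
    intro i
    by_cases hi : i < k
    · obtain ⟨X0, h⟩ := hPst H hH2' (by omega) V hgood
        (fun v hv => ⟨hP1a.trans (hV v hv).1, (hV v hv).2⟩) i hi
      exact ⟨X0, fun _ => h⟩
    · exact ⟨0, fun h => absurd h hi⟩
  have hXB : ∀ i : ℕ, ∃ X0 : ℝ, i < k → ∀ X : ℝ, X0 ≤ X →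
      ‖∑ n ∈ win X (lam * X), mu n / (n : ℂ) *
          act (OW H V i) (gX F lam X) (Real.log n)‖ ≤
        Real.sqrt (2 * ∑ v ∈ V, qs (cell H v) / W1 H V *
          nsq (act (aC (cell H v)) (act (OW H V i) (gX F lam X)))) +
        2 ^ i * (3 / Real.sqrt (W1 H V) + 2 / P1 + 2 * ((i : ℝ) + 2) / H) + e := by
    intro i
    by_cases hi : i < k
    · obtain ⟨X0, h⟩ := partB hF hl hl2 hgood i (by omega) hW1 hP10
        (fun v hv => (hV v hv).1) he0
      exact ⟨X0, fun _ => h⟩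
    · exact ⟨0, fun h => absurd h hi⟩
  choose XA hXA using hXA
  choose XB hXB using hXB
  obtain ⟨M, hM⟩ : ∃ M : ℝ, ∀ i < k, XA i ≤ M ∧ XB i ≤ M := by
    refine ⟨∑ i ∈ range k, (|XA i| + |XB i|), fun i hi => ?_⟩
    have h1 : |XA i| + |XB i| ≤ ∑ i ∈ range k, (|XA i| + |XB i|) :=
      Finset.single_le_sum (f := fun i => |XA i| + |XB i|) (fun j _ => by positivity)
        (Finset.mem_range.2 hi)
    have h2 := le_abs_self (XA i)
    have h3 := le_abs_self (XB i)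
    have h4 := abs_nonneg (XA i)
    have h5 := abs_nonneg (XB i)
    constructor
    · linarith
    · linarith
  refine ⟨max M 1, fun X hX => ?_⟩
  have hXM : M ≤ X := (le_max_left _ _).trans hX
  have hX1 : 1 ≤ X := (le_max_right _ _).trans hX
  have hX0 : 0 < X := by linarith
  obtain ⟨i, hi, hen⟩ := energy hgood (gX_nice hF hl hX0) hk0
  have hA1 := hXA i hi X ((hM i hi).1.trans hXM)
  have hB1 := hXB i hi X ((hM i hi).2.trans hXM)
  -- the splitting of the sum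
  have hsplit : ∑ n ∈ win X (lam * X), mu n * F n / (n : ℂ) =
      ∑ n ∈ win X (lam * X), mu n / (n : ℂ) * (gX F lam X (Real.log n) -
        act (OW H V i) (gX F lam X) (Real.log n)) +
      ∑ n ∈ win X (lam * X), mu n / (n : ℂ) * act (OW H V i) (gX F lam X) (Real.log n) := by
    rw [← Finset.sum_add_distrib]
    refine Finset.sum_congr rfl fun n hn => ?_
    rw [gX_log hX0 hn]
    ring
  -- the four small terms
  have hS : Real.sqrt (2 * ∑ v ∈ V, qs (cell H v) / W1 H V *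
      nsq (act (aC (cell H v)) (act (OW H V i) (gX F lam X)))) ≤ e := by
    refine le_trans (Real.sqrt_le_sqrt ?_) hsk
    have h1 : nsq (gX F lam X) / k ≤ 1 / k := by
      have := nsq_gX_le hF hl hl2 hX0
      gcongr
    calc 2 * ∑ v ∈ V, qs (cell H v) / W1 H V *
          nsq (act (aC (cell H v)) (act (OW H V i) (gX F lam X))) ≤ 2 * (1 / k) := by
          linarith
      _ = 2 / k := by ring
  have h2i : (2 : ℝ) ^ i ≤ 2 ^ k := pow_le_pow_right₀ one_le_two hi.le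
  have hik : (i : ℝ) ≤ k := by exact_mod_cast hi.le
  have t1 : (2 : ℝ) ^ i * (3 / Real.sqrt (W1 H V)) ≤ e := by
    rw [← mul_div_assoc, div_le_iff₀ hsW0]
    rw [div_le_iff₀ he0] at hsW
    nlinarith
  have t2 : (2 : ℝ) ^ i * (2 / P1) ≤ e := by
    rw [← mul_div_assoc, div_le_iff₀ hP10]
    rw [div_le_iff₀ he0] at hP1c
    nlinarith
  have t3 : (2 : ℝ) ^ i * (2 * ((i : ℝ) + 2) / H) ≤ e := by
    rw [← mul_div_assoc, div_le_iff₀ hHpos]
    rw [div_le_iff₀ he0] at hHe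
    have h5 : (2 : ℝ) ^ i * (2 * ((i : ℝ) + 2)) ≤ 2 ^ k * (2 * ((k : ℝ) + 2)) := by
      gcongr
    linarith
  have hlast : (2 : ℝ) ^ i * (3 / Real.sqrt (W1 H V) + 2 / P1 + 2 * ((i : ℝ) + 2) / H) ≤
      3 * e := by
    have : (2 : ℝ) ^ i * (3 / Real.sqrt (W1 H V) + 2 / P1 + 2 * ((i : ℝ) + 2) / H) =
        2 ^ i * (3 / Real.sqrt (W1 H V)) + 2 ^ i * (2 / P1) +
          2 ^ i * (2 * ((i : ℝ) + 2) / H) := by ring
    rw [this]
    linarith
  rw [hsplit]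
  refine (norm_add_le _ _).trans ?_
  linarith

theorem thmN {F : ℝ → ℂ} (hF : Sampled F) {lam : ℝ} (hl : 1 < lam) (hl2 : lam ≤ 2) :
    Tendsto (fun X : ℝ => ∑ n ∈ win X (lam * X), mu n * F n / (n : ℂ)) atTop (𝓝 0) := by
  rw [tendsto_zero_iff_norm_tendsto_zero, Metric.tendsto_atTop]
  intro ε hε
  obtain ⟨X0, hX0⟩ := thmN_bound hF hl hl2 (half_pos hε)
  refine ⟨X0, fun X hX => ?_⟩
  rw [Real.dist_eq, sub_zero, abs_of_nonneg (norm_nonneg _)]
  exact lt_of_le_of_lt (hX0 X hX) (half_lt_self hε)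

end Pool.Agent.MOM
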